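import Pool.Agent.W_MP_61ad90_h44.Main

set_option autoImplicit false

namespace Pool.Agent.Results.MP_61ad90_lc.CountableCofinality

open Cardinal W61ad90

theorem neg_finite {l k t : Cardinal.{0}} (hk : Cardinal.aleph0 ≤ k) (ht : t ≠ 0)
    (hl : l < Cardinal.aleph0) : Neg l k t := by
  intro α β hα hβ
  have hne : Nonempty β := by
    rw [← Cardinal.mk_ne_zero_iff, hβ]
    exact ht
  refine ⟨fun _ => Classical.arbitrary β, fun H hH => ?_⟩
  have h1 := Cardinal.mk_set_le H
  rw [hH, hα] at h1
  exact absurd (hk.trans h1) (not_le.2 hl)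

/-- The square-bracket relation for countably infinite subsets passes through singular cardinals
and through countable powers of cardinals of countable cofinality.  Under CH (in particular under
GCH) the relation of Q1 for `ℵ_{ω+1}` holds if and only if it holds for every finite aleph, and the
least cardinal at which it fails (if any) is regular and is not the successor of a cardinal of
countable cofinality. -/
theorem result :
    (∀ k t l : Cardinal.{0}, k.IsRegular → t ≠ 0 → l.IsSingular →
      (∀ n < l, Neg n k t) → Neg l k t) ∧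
    (∀ k t l : Cardinal.{0}, k.IsRegular → (∀ μ < k, μ ^ Cardinal.aleph0 < k) → t ≠ 0 →
      Cardinal.aleph0 ≤ l → l.ord.cof = Cardinal.aleph0 →
      (∀ n < l, Neg n k t) → Neg (l ^ Cardinal.aleph0) k t) ∧
    ((2 : Cardinal.{0}) ^ Cardinal.aleph0 = Cardinal.aleph 1 →
      (Neg (Cardinal.aleph (Ordinal.omega0 + 1)) (Cardinal.aleph 2) (Cardinal.aleph 2) ↔
        ∀ n : ℕ, Neg (Cardinal.aleph n) (Cardinal.aleph 2) (Cardinal.aleph 2)) ∧
      ∀ l : Cardinal.{0}, (∀ n < l, Neg n (Cardinal.aleph 2) (Cardinal.aleph 2)) →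
        ¬ Neg l (Cardinal.aleph 2) (Cardinal.aleph 2) →
        l.IsRegular ∧ ∀ μ : Cardinal.{0}, Cardinal.aleph0 ≤ μ → μ.ord.cof = Cardinal.aleph0 →
          μ < l → μ ^ Cardinal.aleph0 < l) := by
  have ht : (Cardinal.aleph 2 : Cardinal.{0}) ≠ 0 :=
    (Cardinal.aleph0_pos.trans_le (Cardinal.aleph0_le_aleph 2)).ne'
  refine ⟨fun k t l hk ht hl h => neg_singular hk ht hl h,
    fun k t l hk hk2 ht hl hcof h => neg_power hk hk2 ht hl hcof h,
    fun hCH => ⟨neg_aleph_omega_succ regular_two (aleph_two_closed hCH) ht, ?_⟩⟩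
  intro l h hl
  have hinf : Cardinal.aleph0 ≤ l := by
    by_contra hcon
    exact hl (neg_finite (Cardinal.aleph0_le_aleph 2) ht (not_le.1 hcon))
  refine ⟨?_, fun μ hμ hcof hlt => ?_⟩
  · by_contra hreg
    exact hl (neg_singular regular_two ht ⟨hinf, fun h2 => hreg ⟨hinf, h2.ge⟩⟩ h)
  · by_contra hcon
    push Not at hcon
    exact hl ((neg_power regular_two (aleph_two_closed hCH) ht hμ hcof
      fun n hn => h n (hn.trans hlt)).mono hcon)

end Pool.Agent.Results.MP_61ad90_lc.CountableCofinality
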