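import Pool.Agent.W_61ad90_h32.Model61
import Pool.Agent.W_61ad90_h32.SC61
import Pool.Agent.W_61ad90_h15.Main

set_option autoImplicit false

/-!
# MP_61ad90_lc, Q1 : `ℵ_(ω+1) ↛ [ℵ₂]^ℵ₀_ℵ₂` is not a theorem of ZFC + GCH

If GCH holds and there is a cardinal `κ` which is `κ⁺⁺`-supercompact, then there is a countable
well-founded model `(M, E)` of ZFC + GCH in which every colouring of `[ℵ_(ω+1)]^ℵ₀` (even of `[ℵ₄]^ℵ₀`)
with `ℵ₂` colours omits a colour on `[H]^ℵ₀` for some `H` of size `ℵ₂`.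

Proof: force with the product of two collapses `Col(ω₁, ν⁺) × Col(ν⁺⁺, κ)` for a suitable `ν < κ`, so that
`ν⁺⁺`, `κ⁺`, `κ⁺⁺` become `ω₂`, `ω₃`, `ω₄`.  Suppose that for every `ν` there is a name of a bad colouring `f_ν` of
`[κ⁺⁺]^ω`.  Below a condition of the small forcing `Col(ω₁, ν⁺)` the possible values of the colour of `e`, for
`e : ω → κ⁺⁺` in the ground model, are coded by a name for the forcing `Col(ν⁺⁺, κ)`, and there are only `κ` such
codes for each `ν`, so `κ⁺` for all `ν` together.  A fine normal ultrafilter on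
`P_κ(κ⁺⁺)` gives a set `x` of size `ν⁺⁺` with trace `ν⁺` on `κ⁺` such that the codes of all sequences of elements of
`x` lie in the trace; so there are at most `ν⁺` codes, the `ν⁺`-closed forcing `Col(ν⁺⁺, κ)` decides them all, and
the colours which the sequences of elements of `x` get are bounded in `ν⁺⁺`.

The native part is `Pool/Agent/W_61ad90_h15` (helper15), the model part `Pool/Agent/W_61ad90_h32` (helper32).
-/

universe u

open Cardinal

namespace Pool.Agent.Results.MP_61ad90_lc.FailsUnderGCH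

theorem result (hG : ∀ μ : Cardinal.{u}, ℵ₀ ≤ μ → (2 : Cardinal.{u}) ^ μ = Order.succ μ)
    (κ : Cardinal.{u}) (h : SQR.IsSC2 κ) :
    ∃ (M : Type (u + 1)) (E : M → M → Prop), Countable M ∧ WellFounded E ∧ HESR.IsZFC E ∧
      SQR.GCH E ∧ SQR.PosRel E ∧ SQR.PosRel4 E := by
  obtain ⟨μ, hne, hcore⟩ := W61.core61_exists hG h.1 h.sum
  have : Nontrivial (W61.Dm μ (W61.To κ)) := ⟨⟨⊤, ⊥, hne⟩⟩
  exact Pool.Agent.W_61ad90.model_of_core61 hcore

end Pool.Agent.Results.MP_61ad90_lc.FailsUnderGCH
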